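import Pool.Agent.Run7.h684.SO.All

/-!
# Selberg's asymptotic and the zeros and poles on the line `Re s = 1`

For an element `F` of the Selberg class let `n(t)` be the order of `F` at `1 + it` (positive for a zero, negative for the
pole). We prove: the asymptotic `S_F(x) = log log x + O(1)` is equivalent to the corresponding statement for the series
`∑_p |a(p)|² p^(-1-δ)`; an upper bound `S_F(x) ≤ κ log log x + O(1)` implies `∑_t n(t)² ≤ κ` (Bessel's inequality); and if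
`F` has a zero or a pole at `1 + it` then the asymptotic holds if and only if it is simple and
`∑_p |a(p) + n(t) p^(it)|² / p < ∞`.
-/

set_option autoImplicit false

open Complex Filter Topology

namespace Pool.Agent.Results.MP_8e9775_nt.OrdersOnTheLine

/-- The completed function `Q^s ∏_{j ≤ r} Γ(λ_j s + μ_j) F(s)`. -/
noncomputable def Phi (F : ℂ → ℂ) (Q : ℝ) {r : ℕ} (lam : Fin r → ℝ) (mu : Fin r → ℂ) (s : ℂ) : ℂ :=
  (Q : ℂ) ^ s * (∏ j, Gamma ((lam j : ℂ) * s + mu j)) * F s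

/-- The Selberg class: `a` is the sequence of coefficients and `F` the continuation of the Dirichlet series to `s ≠ 1`
(the value of `F` at `1` is irrelevant). -/
structure IsSelberg (a : ℕ → ℂ) (F : ℂ → ℂ) : Prop where
  /-- `a(1) = 1` -/
  one : a 1 = 1
  /-- 1: absolute convergence for `Re s > 1` -/
  conv : ∀ s : ℂ, 1 < s.re → LSeriesSummable a s
  /-- `F` is the sum of the series for `Re s > 1` -/
  series : ∀ s : ℂ, 1 < s.re → F s = LSeries a s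
  /-- 2: some `(s - 1)^m F(s)` is entire of finite order -/
  continuation : ∃ (m : ℕ) (G : ℂ → ℂ), Differentiable ℂ G ∧
    (∃ A B : ℝ, ∀ s : ℂ, ‖G s‖ ≤ A * Real.exp (‖s‖ ^ B)) ∧ ∀ s : ℂ, s ≠ 1 → G s = (s - 1) ^ m * F s
  /-- 3: functional equation `Φ(s) = ε conj Φ(1 - conj s)`, at every `s ≠ 0, 1` at which no Gamma factor of `Φ(s)` or
  `Φ(1 - conj s)` has a pole -/
  functional : ∃ (Q : ℝ) (r : ℕ) (lam : Fin r → ℝ) (mu : Fin r → ℂ) (ε : ℂ),
    0 < Q ∧ (∀ j, 0 < lam j) ∧ (∀ j, 0 ≤ (mu j).re) ∧ ‖ε‖ = 1 ∧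
    ∀ s : ℂ, s ≠ 0 → s ≠ 1 →
      (∀ j, ∀ n : ℕ, (lam j : ℂ) * s + mu j ≠ -(n : ℂ)) →
      (∀ j, ∀ n : ℕ, (lam j : ℂ) * (1 - starRingEnd ℂ s) + mu j ≠ -(n : ℂ)) →
      Phi F Q lam mu s = ε * starRingEnd ℂ (Phi F Q lam mu (1 - starRingEnd ℂ s))
  /-- 4: Ramanujan bound -/
  ramanujan : ∀ ε : ℝ, 0 < ε → ∃ C : ℝ, ∀ n : ℕ, 1 ≤ n → ‖a n‖ ≤ C * (n : ℝ) ^ ε
  /-- 5: Euler product, with `b(p) = a(p)` (which, as the problem says, follows from the product formula) -/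
  euler : ∃ (b : ℕ → ℂ) (θ C : ℝ), θ < 1 / 2 ∧
    (∀ p l : ℕ, p.Prime → 1 ≤ l → ‖b (p ^ l)‖ ≤ C * ((p : ℝ) ^ l) ^ θ) ∧
    (∀ p : ℕ, p.Prime → b p = a p) ∧
    ∀ s : ℂ, 1 < s.re → HasProd (fun p : Nat.Primes =>
      exp (∑' l : ℕ, b ((p : ℕ) ^ (l + 1)) * (((p : ℕ) ^ (l + 1) : ℕ) : ℂ) ^ (-s))) (F s)

/-- `S_F(x)`, the sum over the primes `p ≤ x` of `|a(p)|² / p` -/
noncomputable def S (a : ℕ → ℂ) (x : ℝ) : ℝ :=
  ∑ p ∈ (Finset.Icc 1 ⌊x⌋₊).filter Nat.Prime, ‖a p‖ ^ 2 / p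

/-- `∑_p |a(p)|² p^(-1-δ)` -/
noncomputable def D (a : ℕ → ℂ) (δ : ℝ) : ℝ := ∑' p : Nat.Primes, ‖a p‖ ^ 2 * ((p : ℕ) : ℝ) ^ (-(1 + δ))

/-- the asymptotic of Q1: `S_F(x) = log log x + O(1)` -/
def Asymptotic (a : ℕ → ℂ) : Prop := ∃ C : ℝ, ∀ x : ℝ, 2 ≤ x → |S a x - Real.log (Real.log x)| ≤ C

/-- the order of `F` at the point `1 + it` (positive for zeros, negative for poles) -/
noncomputable def order (F : ℂ → ℂ) (t : ℝ) : ℤ := (meromorphicOrderAt F (1 + (t : ℂ) * I)).untop₀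

/-- `∑_p |a(p) + n p^(it)|² / p` converges -/
def Near (a : ℕ → ℂ) (n : ℤ) (t : ℝ) : Prop :=
  Summable fun p : Nat.Primes => ‖a p + (n : ℂ) * ((p : ℕ) : ℂ) ^ ((t : ℂ) * I)‖ ^ 2 / ((p : ℕ) : ℝ)

open Run7.h684.SO

theorem pt_zero (t : ℝ) : pt 0 t = 1 + (t : ℂ) * I := by
  unfold pt
  push_cast
  ring

theorem order_eq (F : ℂ → ℂ) (t : ℝ) : order F t = od F t := by
  unfold order od
  rw [pt_zero]

theorem near_iff (a : ℕ → ℂ) (F : ℂ → ℂ) (t : ℝ) : Near a (order F t) t ↔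
    Summable (fun p : Nat.Primes => dev a F {t} p / (p : ℕ)) := by
  unfold Near dev
  rw [order_eq]
  simp only [Finset.sum_singleton]

theorem sq_summable {a : ℕ → ℂ} (h : ∀ ε : ℝ, 0 < ε → ∃ C : ℝ, ∀ n : ℕ, 1 ≤ n → ‖a n‖ ≤ C * (n : ℝ) ^ ε) :
    Sm (fun p => ‖a p‖ ^ 2) := by
  intro δ hδ
  obtain ⟨C, hC⟩ := h (δ / 4) (by positivity)
  have h1 : Summable (fun n : ℕ => (n : ℝ) ^ (-(1 + δ / 2))) := Real.summable_nat_rpow.2 (by linarith)
  have h2 : Summable (fun p : Nat.Primes => C ^ 2 * ((p : ℕ) : ℝ) ^ (-(1 + δ / 2))) :=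
    (h1.comp_injective (i := fun p : Nat.Primes => (p : ℕ)) Subtype.val_injective).mul_left _
  refine Summable.of_nonneg_of_le (fun p => by positivity) (fun p => ?_) h2
  have hp : (0 : ℝ) < ((p : ℕ) : ℝ) := by exact_mod_cast p.2.pos
  have h3 := hC p p.2.one_lt.le
  have h4 : ‖a p‖ ^ 2 ≤ (C * ((p : ℕ) : ℝ) ^ (δ / 4)) ^ 2 := pow_le_pow_left₀ (norm_nonneg _) h3 2
  calc ‖a p‖ ^ 2 * ((p : ℕ) : ℝ) ^ (-(1 + δ))
      ≤ (C * ((p : ℕ) : ℝ) ^ (δ / 4)) ^ 2 * ((p : ℕ) : ℝ) ^ (-(1 + δ)) :=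
        mul_le_mul_of_nonneg_right h4 (Real.rpow_nonneg hp.le _)
    _ = C ^ 2 * (((p : ℕ) : ℝ) ^ (δ / 4) * ((p : ℕ) : ℝ) ^ (δ / 4) * ((p : ℕ) : ℝ) ^ (-(1 + δ))) := by ring
    _ = C ^ 2 * ((p : ℕ) : ℝ) ^ (-(1 + δ / 2)) := by
        rw [← Real.rpow_add hp, ← Real.rpow_add hp]
        congr 2
        ring

theorem an {a : ℕ → ℂ} {F : ℂ → ℂ} (h : IsSelberg a F) : ∃ b : ℕ → ℂ, An a b F := by
  obtain ⟨b, θ, C, hθ, hb, hab, hprod⟩ := h.euler
  obtain ⟨m, G, hG, _, hGF⟩ := h.continuation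
  have hF : ∀ s : ℂ, s ≠ 1 → F s = G s / (s - 1) ^ m := fun s hs => by
    rw [hGF s hs, mul_comm, mul_div_assoc, div_self (pow_ne_zero _ (sub_ne_zero.2 hs)), mul_one]
  refine ⟨b, ⟨⟨fun p hp => (hab p hp).symm, h.conv, ⟨θ, C, hθ, ?_, fun p l hp hl => ?_⟩, hprod⟩, fun t => ?_,
    fun δ t hδ => ?_, sq_summable h.ramanujan⟩⟩
  · have h1 := (norm_nonneg _).trans (hb 2 1 Nat.prime_two le_rfl)
    by_contra hneg
    rw [not_le] at hneg
    have h2 : (0 : ℝ) < (((2 : ℕ) : ℝ) ^ 1) ^ θ := by positivity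
    nlinarith
  · have h1 := hb p l hp hl
    rw [← Real.rpow_natCast, ← Real.rpow_mul (Nat.cast_nonneg p)] at h1
    exact h1
  · have h1 : MeromorphicAt (fun s : ℂ => G s / (s - 1) ^ m) (pt 0 t) :=
      (hG.analyticAt _).meromorphicAt.div (by
        have : AnalyticAt ℂ (fun s : ℂ => (s - 1) ^ m) (pt 0 t) := by fun_prop
        exact this.meromorphicAt)
    refine h1.congr ?_
    have h2 : ∀ᶠ s in 𝓝[≠] (pt 0 t), s ≠ 1 := by
      by_cases hz : pt 0 t = 1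
      · rw [hz]
        exact self_mem_nhdsWithin
      · exact mem_nhdsWithin_of_mem_nhds (isOpen_ne.mem_nhds hz)
    filter_upwards [h2] with s hs
    exact (hF s hs).symm
  · have hz : pt δ t ≠ 1 := by
      intro h1
      have h2 := congrArg Complex.re h1
      simp [pt] at h2
      exact hδ.ne' h2
    have h1 : ContinuousAt (fun s : ℂ => G s / (s - 1) ^ m) (pt δ t) := by
      refine (hG.continuous.continuousAt).div (by fun_prop) ?_
      exact pow_ne_zero _ (sub_ne_zero.2 hz)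
    refine h1.congr ?_
    filter_upwards [isOpen_ne.mem_nhds hz] with s hs
    exact (hF s hs).symm

/-- Let `F` be in the Selberg class, with coefficients `a`, and let `n(t) = order F t`.
(1) `S_F(x) = log log x + O(1)` if and only if `∑_p |a(p)|² p^(-1-δ) = log (1/δ) + O(1)` for `0 < δ ≤ 1`.
(2) If `S_F(x) ≤ κ log log x + C` for all `x ≥ 2` then `∑_{t ∈ J} n(t)² ≤ κ` for every finite set `J` of real numbers.
(3) If `S_F(x) = log log x + O(1)` then there is at most one `t` with `n(t) ≠ 0`, and `n(t)` is `1` or `-1` there.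
(4) If `n(t) ≠ 0` for some `t`, then `S_F(x) = log log x + O(1)` if and only if `n(t)` is `1` or `-1` and
`∑_p |a(p) + n(t) p^(it)|² / p` converges.
(5) In particular, if `F` has a pole at `1`, then `S_F(x) = log log x + O(1)` if and only if the pole is simple and
`∑_p |a(p) - 1|² / p` converges. -/
theorem result (a : ℕ → ℂ) (F : ℂ → ℂ) (h : IsSelberg a F) :
    (Asymptotic a ↔ ∃ C : ℝ, ∀ δ : ℝ, 0 < δ → δ ≤ 1 → |D a δ - Real.log (1 / δ)| ≤ C) ∧
    (∀ κ C : ℝ, (∀ x : ℝ, 2 ≤ x → S a x ≤ κ * Real.log (Real.log x) + C) →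
      ∀ J : Finset ℝ, ∑ t ∈ J, (order F t : ℝ) ^ 2 ≤ κ) ∧
    (Asymptotic a → (∀ t : ℝ, order F t = 0 ∨ order F t = 1 ∨ order F t = -1) ∧
      ∀ t u : ℝ, order F t ≠ 0 → order F u ≠ 0 → t = u) ∧
    (∀ t : ℝ, order F t ≠ 0 →
      (Asymptotic a ↔ (order F t = 1 ∨ order F t = -1) ∧ Near a (order F t) t)) ∧
    (order F 0 < 0 → (Asymptotic a ↔ order F 0 = -1 ∧
      Summable fun p : Nat.Primes => ‖a p - 1‖ ^ 2 / ((p : ℕ) : ℝ))) := by
  obtain ⟨b, hb⟩ := an h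
  have hS : ∀ x : ℝ, S a x = Sw (fun p => ‖a p‖ ^ 2) x := fun x => rfl
  have hAs : Asymptotic a ↔ ∃ C : ℝ, ∀ x : ℝ, 2 ≤ x → |Sw (fun p => ‖a p‖ ^ 2) x - Real.log (Real.log x)| ≤ C :=
    Iff.rfl
  have part2 : ∀ κ C : ℝ, (∀ x : ℝ, 2 ≤ x → S a x ≤ κ * Real.log (Real.log x) + C) →
      ∀ J : Finset ℝ, ∑ t ∈ J, (order F t : ℝ) ^ 2 ≤ κ := by
    intro κ C hC J
    have h1 := bessel pcs hb ⟨C, hC⟩ J
    unfold Nt at h1
    simp only [order_eq]
    exact h1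
  have part4 : ∀ t : ℝ, order F t ≠ 0 →
      (Asymptotic a ↔ (order F t = 1 ∨ order F t = -1) ∧ Near a (order F t) t) := by
    intro t ht
    rw [near_iff, hAs]
    rw [order_eq] at ht ⊢
    exact criterion pcs hb ht
  refine ⟨?_, part2, fun hA => ?_, part4, fun h0 => ?_⟩
  · rw [hAs, series_iff pcs hb]
    refine exists_congr fun C => forall_congr' fun δ => forall_congr' fun hδ => forall_congr' fun _ => ?_
    rw [one_div, Real.log_inv, sub_neg_eq_add]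
    exact Iff.rfl
  · obtain ⟨C, hC⟩ := hA
    have h1 : ∀ x : ℝ, 2 ≤ x → S a x ≤ 1 * Real.log (Real.log x) + C := by
      intro x hx
      have := (abs_le.1 (hC x hx)).2
      linarith
    constructor
    · intro t
      have h2 := part2 1 C h1 {t}
      rw [Finset.sum_singleton] at h2
      have h3 : (order F t) ^ 2 ≤ 1 := by exact_mod_cast h2
      have h5 : order F t ≤ 1 := by nlinarith
      have h6 : -1 ≤ order F t := by nlinarith
      omega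
    · intro t u ht hu
      by_contra htu
      have h2 := part2 1 C h1 {t, u}
      rw [Finset.sum_pair htu] at h2
      have h3 : (order F t) ^ 2 + (order F u) ^ 2 ≤ 1 := by exact_mod_cast h2
      have h4 : 1 ≤ (order F t) ^ 2 := by
        have := sq_nonneg (order F t)
        have h5 : (order F t) ^ 2 ≠ 0 := pow_ne_zero 2 ht
        omega
      have h6 : 1 ≤ (order F u) ^ 2 := by
        have := sq_nonneg (order F u)
        have h5 : (order F u) ^ 2 ≠ 0 := pow_ne_zero 2 hu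
        omega
      omega
  · rw [part4 0 h0.ne]
    have e1 : ∀ p : Nat.Primes, ‖a p + ((-1 : ℤ) : ℂ) * ((p : ℕ) : ℂ) ^ (((0 : ℝ) : ℂ) * I)‖ ^ 2 / ((p : ℕ) : ℝ) =
        ‖a p - 1‖ ^ 2 / ((p : ℕ) : ℝ) := by
      intro p
      have : a p + ((-1 : ℤ) : ℂ) * ((p : ℕ) : ℂ) ^ (((0 : ℝ) : ℂ) * I) = a p - 1 := by
        rw [Complex.ofReal_zero, zero_mul, Complex.cpow_zero]
        push_cast
        ring
      rw [this]
    constructor
    · rintro ⟨h1 | h1, h2⟩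
      · omega
      · refine ⟨h1, ?_⟩
        rw [h1] at h2
        unfold Near at h2
        simpa only [e1] using h2
    · rintro ⟨h1, h2⟩
      refine ⟨Or.inr h1, ?_⟩
      rw [h1]
      unfold Near
      simpa only [e1] using h2

end Pool.Agent.Results.MP_8e9775_nt.OrdersOnTheLine
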