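import Pool.Agent.Run7.h61.SO.Fin

/-!
# Selberg's asymptotic formula for almost all curves of a family, for all genera

`K` is any number field.  The theorem is about the families `𝓕` of curves `C_t : y² = f_t(x)`,
`f_t = F₀ + m (t₀ X + t₁ + ∑ t_j P_j)`, of odd degree `2g + 1 ≥ 3` over the integers of `K` (the structure
`TFam`; the polynomial `m` may be `1`, and in general its roots are the abscissas of marked points, defined
over an extension of `K`, which lie on all curves).  For example, all curves `y² = f(x)` with a monic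
polynomial of degree `2g + 1` form such a family, for each genus `g ≥ 1` (first clause).

The L-function of (the Jacobian of) `C_t`, in the normalisation with the centre `1/2`, has the coefficients
`a_t(v) = tr(Frob_v) / √Nv`, `tr(Frob_v)` being `Nv + 1` minus the number of the points modulo `v`.  Selberg's
conjecture for a primitive function says `∑_{Nv ≤ x} |a_t(v)|² / Nv = log log x + O(1)`.

1. There is a constant `C` such that for all large `Z`, all boxes with sides at least `Z⁴` and all `ε` in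
   `(0, 1]`, for all members `t` in the box up to a proportion `ε`, simultaneously for all `3 ≤ x ≤ Z`,
   `|∑_{Nv ≤ x} |a_t(v)|² / Nv - log log x| ≤ C / ε`: the formula holds for almost all members with a constant
   that is uniform in the family and in the whole range `x ≤ H^(1/4)`.
2. The same with arbitrary weights `w(v)` of absolute value at most `1`, with a constant independent of the
   weights: `|∑_{Nv ≤ x} w(v) |a_t(v)|² / Nv - ∑_{Nv ≤ x} w(v) / Nv| ≤ C / ε`.  (For twists by an Artin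
   character `χ` of degree `n` take `w = |χ|² / n²`, for the orthogonality of the function and of its
   twist `w = Re χ / n`.)

The sums are over the good places (`v ∤ 2` and `f_t` separable modulo `v`).
-/

set_option autoImplicit false
open NumberField IsDedekindDomain Polynomial

namespace Pool.Agent.Results.MP_8e9775_nt.OrthogonalityInFamilies

open Run7.h876.MM Run7.h9.BS Run7.h61.TW Run7.h61.SO

/-- **Selberg's asymptotic formula for almost all curves.** -/
theorem result (K : Type) [Field K] [NumberField K] :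
    (∀ g : ℕ, ∃ 𝓕 : TFam K (Fin (2 * g + 1)), ∀ t : Fin 2 ⊕ Fin (2 * g + 1) → 𝓞 K,
      𝓕.member t = X ^ (2 * g + 3) + (C (t (Sum.inl 0)) * X + C (t (Sum.inl 1)) +
        ∑ j : Fin (2 * g + 1), C (t (Sum.inr j)) * X ^ ((j : ℕ) + 2))) ∧
    ∀ (J : Type) [Fintype J] [DecidableEq J] (𝓕 : TFam K J)
      (ι : Type) [Fintype ι] [DecidableEq ι] (ω : Module.Basis ι ℤ (𝓞 K)),
      -- the asymptotic formula
      (∃ (C : ℝ) (Z₀ : ℕ), 0 ≤ C ∧ ∀ Z : ℕ, Z₀ ≤ Z → ∀ H : Fin 2 ⊕ J → ℕ, (∀ j, Z ^ 4 ≤ H j) →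
        ∀ ε : ℝ, 0 < ε → ε ≤ 1 →
          1 - ε ≤ prop ω H 𝓕.smooth (fun t => ∀ x : ℕ, 3 ≤ x → x ≤ Z →
            |selbergSum (𝓕.member t) (fun _ => 1) x - Real.log (Real.log x)| ≤ C / ε)) ∧
      -- with weights
      (∃ (C : ℝ) (Z₀ : ℕ), 0 ≤ C ∧ ∀ Z : ℕ, Z₀ ≤ Z → ∀ H : Fin 2 ⊕ J → ℕ, (∀ j, Z ^ 4 ≤ H j) →
        ∀ w : HeightOneSpectrum (𝓞 K) → ℝ, (∀ v, |w v| ≤ 1) → ∀ ε : ℝ, 0 < ε → ε ≤ 1 →
          1 - ε ≤ prop ω H 𝓕.smooth (fun t => ∀ x : ℕ, x ≤ Z →
            |selbergSum (𝓕.member t) w x - ∑ v ∈ SZ K x, w v / nv v| ≤ C / ε)) :=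
  ⟨oddFam_member K, fun _ _ _ 𝓕 _ _ _ ω => ⟨loglog 𝓕 ω, weights 𝓕 ω⟩⟩

end Pool.Agent.Results.MP_8e9775_nt.OrthogonalityInFamilies
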